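import Pool.Agent.H40.Js9

set_option autoImplicit false

namespace Pool.Agent.Results.MP_915581_lc.Model

open Pool.Agent.H40.Bspt Pool.Agent.H40.Jz Pool.Agent.H40.Js Set Filter

abbrev A : Type := (ℕ × ℕ) × ℕ

def Q : Option ℕ → Set A → Prop
  | none, y => ∃ d : Set (ℕ × ℕ), (d.Finite ∨ ∃ i, d =ᶠ[cofinite] {p | p.1 = i}) ∧
      ∀ᶠ x in cofinite, x ∈ y ↔ x.1 ∈ d
  | some i, y => ∀ᶠ k in cofinite, ∀ᶠ m in cofinite, ((i, k), m) ∈ y

instance : NF (Pres Q) := presNF Q none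

theorem col {X : Type} {p : X × ℕ → Prop} (h : ∀ᶠ x in cofinite, p x) (i : X) :
    ∀ᶠ k in cofinite, p (i, k) :=
  (Prod.mk_right_injective i).tendsto_cofinite.eventually h

theorem mem_pres {π : Equiv.Perm A} (h : ∀ x, π (π x) = x) (p q : ℕ × ℕ)
    (h' : ∀ᶠ x in cofinite, π x = (Equiv.swap p q x.1, x.2)) : π ∈ Pres Q :=
  pres_of h fun i y hy => by
    rcases i with _ | i
    · obtain ⟨d, h1, h2⟩ := hy
      refine ⟨Equiv.swap p q ⁻¹' d, h1.imp (fin_ae (swap_ae p q d))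
        fun ⟨k, e⟩ => ⟨k, (swap_ae p q d).trans e⟩, ?_⟩
      filter_upwards [h', π.injective.tendsto_cofinite.eventually h2] with x a b
      rw [mem_preimage, b, a]
      rfl
    · filter_upwards [show ∀ᶠ k in cofinite, ∀ᶠ m in cofinite, ((i, k), m) ∈ y from hy,
        col (eventually_cofinite_ne p) i, col (eventually_cofinite_ne q) i] with k a b c
      filter_upwards [a, col h' (i, k)] with m d e
      rwa [mem_preimage, e, Equiv.swap_apply_of_ne_of_ne b c]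

theorem q_fin {y : Set A} (h : y.Finite) : Q none y :=
  ⟨∅, Or.inl finite_empty, h.subset fun x hx => by simpa using hx⟩

theorem mq {i : ℕ} {U : PS (Pres Q) A} : U ∈ (qFam Q (some i)).1 ↔
    ∀ᶠ k in cofinite, ∀ᶠ m in cofinite, ((i, k), m) ∈ U.1 := Iff.rfl

theorem fib (U : PS (Pres Q) A) : ∃ d : Set (ℕ × ℕ), ∀ᶠ x in cofinite, x ∈ U.1 ↔ x.1 ∈ d := by
  obtain ⟨F, h1, h2, h3⟩ := pres_iff.1 U.2
  choose! d _ h4 using h2
  have h5 := (eventually_all_finite h1).2 h4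
  refine ⟨{p | ∃ m, (p, m) ∈ U.1 ∧ ∀ y ∈ F, (p, m) ∈ y ↔ p ∈ d y},
    h5.mono fun x hx => ⟨fun a => ⟨x.2, a, hx⟩, fun ⟨m, a, b⟩ => ?_⟩⟩
  have := h3 ⟨Equiv.swap (x.1, m) x, mem_pres (Equiv.swap_apply_self _ _) x.1 x.1 (by
    filter_upwards [eventually_cofinite_ne (x.1, m), eventually_cofinite_ne x] with z a b
    simp [Equiv.swap_apply_of_ne_of_ne a b])⟩
    (swap_pres fun y hy => (b y hy).trans (hx y hy).symm) (x.1, m)
  exact Equiv.swap_apply_left (x.1, m) x ▸ this.2 a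

open Classical in
noncomputable def fs (p q : ℕ × ℕ) (K : Set ℕ) (x : A) : A :=
  if x.2 ∈ K then (Equiv.swap p q x.1, x.2) else x

theorem fs_inv (p q : ℕ × ℕ) (K : Set ℕ) : Function.Involutive (fs p q K) := fun x => by
  by_cases h : x.2 ∈ K <;> simp [fs, h]

theorem fs_ae (p q : ℕ × ℕ) {K : Set ℕ} (h : Kᶜ.Finite) :
    ∀ᶠ x in cofinite, fs p q K x = (Equiv.swap p q x.1, x.2) :=
  ((toFinite {p, q}).prod h).subset fun x hx => by
    by_cases a : x.2 ∈ K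
    · exact absurd (if_pos a) hx
    · refine ⟨by_contra fun b => hx ((if_neg a).trans ?_), a⟩
      rw [Equiv.swap_apply_of_ne_of_ne (fun e => b (Or.inl e)) fun e => b (Or.inr e)]

theorem result : ∃ (M : Type) (E : M → M → Prop), IsZF E ∧ ∃ ν : ℕ → M, Numer E ν ∧
    ∃ X, FBI E ν X ∧ ¬ SFBI E ν X := by
  obtain ⟨J⟩ := ex_js (Λ := Pres Q) (A := A) (pres_fx fun a => q_fin (finite_singleton a))
  let C : ℕ → PS (Pres Q) A := fun i => ⟨{x | x.1.1 = i},
    pres_sym ⟨_, Or.inr ⟨i, .rfl⟩, Eventually.of_forall fun _ => Iff.rfl⟩⟩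
  have hC : ∀ i, C i ∈ (qFam Q (some i)).1 := fun i =>
    mq.2 (Eventually.of_forall fun _ => Eventually.of_forall fun _ => rfl)
  refine ⟨J.M, J.E, J.zf, J.nu, J.numer, J.sA unA, ⟨fun i => J.fA (qFam Q (some i)),
    J.seq_of (t := .w (.w .a)) (Eventually.of_forall fun g _ => qFam_fix _ _ g), fun i =>
    ⟨J.fb_of ⟨_, hC i⟩ (fun U h => ?_) fun U a W b Z e => ?_, ?_⟩,
    fun i j h => ⟨_, _, J.memS.2 (hC i), J.memS.2 (hC j), J.allA.2 fun x a b =>
      h (a.symm.trans (J.memA.1 b))⟩⟩, ?_⟩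
  · obtain ⟨k, h⟩ := (mq.1 h).exists
    exact ⟨_, h.exists.choose_spec⟩
  · rw [mq, e]
    exact ((mq.1 a).and (mq.1 b)).mono fun k h => h.1.and h.2
  · rintro ⟨x, hx⟩
    obtain ⟨x, rfl⟩ := J.isA (hx _ (J.memS.2 (hC i)))
    exact J.memA.1 (hx (J.sA ⟨{x}ᶜ, sym_compl (pres_sym (q_fin (finite_singleton x)))⟩)
      (J.memS.2 (mq.2 (Eventually.of_forall fun k => col (eventually_cofinite_ne x) _)))) rfl
  rintro ⟨V, h1, h2, h3, -⟩
  choose v hv using fun i => J.fb_el (h2 i).1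
  obtain ⟨F, f1, f2, f3⟩ := pres_iff.1 (J.seq_el (t := .w (.w .a)) h1 hv)
  choose! d _ f4 using f2
  have f5 := (eventually_all_finite f1).2 f4
  have g1 : ∀ n, ∀ U ∈ (v n).1, ∀ W ∈ (v n).1, ∀ᶠ x in cofinite, x ∈ U.1 → x ∈ W.1 := by
    intro n U a W b
    have := (h2 n).2.2.2.2 _ _ (hv n ▸ J.memS.2 a) (hv n ▸ J.memS.2 b)
    rw [J.few_iff fun z h => J.isA h.1] at this
    exact this.subset fun x hx => by simpa [J.memA] using hx
  have g2 : ∀ n, ∃ U, U ∈ (v n).1 := fun n => by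
    obtain ⟨U, h⟩ := (h2 n).1.1
    obtain ⟨U, a, -⟩ := J.elS (hv n ▸ h)
    exact ⟨U, a⟩
  choose U hU using g2
  choose D hD using fun n => fib (U n)
  refine infinite_of_injective_forall_mem (f := D) (fun m n e => by_contra fun h => ?_)
    (fun n => ?_) (fin_sat (f1.image d))
  · obtain ⟨X, Y, a, b, c⟩ := h3 m n h
    obtain ⟨X, a', rfl⟩ := J.elS (hv m ▸ a)
    obtain ⟨Y, b', rfl⟩ := J.elS (hv n ▸ b)
    rw [J.few_iff fun z h => J.isA h.1] at c
    refine (h2 m).2.2.2.1 _ (hv m ▸ J.memS.2 (hU m)) (J.finA.2 ?_)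
    have : ∀ᶠ x in cofinite, x ∉ (U m).1 := by
      filter_upwards [c.compl_mem_cofinite, g1 m _ (hU m) _ a', g1 n _ (hU n) _ b', hD m, hD n]
        with x k1 k2 k3 k4 k5 k6
      exact k1 ⟨J.memA.2 (k2 k6), J.memA.2 (k3 (k5.2 (e ▸ k4.1 k6)))⟩
    simpa using this
  · intro p q e hp
    let K : Set ℕ := {m | ∀ y ∈ F, (p, m) ∈ y ↔ (q, m) ∈ y}
    have hK : ∀ᶠ m in cofinite, m ∈ K := by
      filter_upwards [col f5 p, col f5 q] with m a b y hy
      rw [a y hy, b y hy]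
      exact e _ ⟨y, hy, rfl⟩
    let g : Pres Q := ⟨(fs_inv p q K).toPerm, mem_pres (fs_inv p q K) p q (fs_ae p q hK)⟩
    have := f3 g (fun y hy x => by
      show fs p q K x ∈ y ↔ _
      unfold fs
      split_ifs with a
      · rw [Equiv.swap_apply_def]
        split_ifs with b c
        · rw [← a y hy, ← b]
        · rw [a y hy, ← c]
        · rfl
      · rfl) n
    have k : g • U n ∈ (v n).1 := this ▸ smul_mem.2 (hU n)
    obtain ⟨m, k1, k2, k3, k4⟩ := (hK.and ((col (g1 n _ k _ (hU n)) q).and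
      ((col (hD n) p).and (col (hD n) q)))).exists
    refine k4.1 (k2 ?_)
    have := (smul_mem (g := g)).2 (k3.2 hp)
    rwa [show g • ((p, m) : A) = (q, m) from (if_pos k1).trans (by simp)] at this

end Pool.Agent.Results.MP_915581_lc.Model
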